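import Pool.Agent.H15.IX.TB

set_option autoImplicit false

open Finset Pool.Agent.H15.IX

namespace Pool.Agent.H16.IX

universe u

section ext

variable {A K E : Type u} [CommRing A] [Field K] [Algebra A K] [Field E] [Algebra K E]
  [Algebra A E] [IsScalarTower A K E]

theorem el_mul (M M' : Submodule A E) :
    Submodule.span K ((M * M' : Submodule A E) : Set E) =
      Submodule.span K (M : Set E) * Submodule.span K (M' : Set E) := by
  apply le_antisymm
  · rw [Submodule.span_le]
    have h1 : M * M' ≤ (Submodule.span K (M : Set E) * Submodule.span K (M' : Set E)).restrictScalars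
        A := by
      rw [Submodule.mul_le]
      intro m hm n hn
      rw [Submodule.restrictScalars_mem]
      exact Submodule.mul_mem_mul (Submodule.subset_span hm) (Submodule.subset_span hn)
    intro x hx
    exact (Submodule.restrictScalars_mem A _ x).mp (h1 hx)
  · rw [Submodule.span_mul_span, Submodule.span_le]
    rintro _ ⟨m, hm, n, hn, rfl⟩
    exact Submodule.subset_span (Submodule.mul_mem_mul hm hn)

theorem el_one : Submodule.span K ((1 : Submodule A E) : Set E) = 1 := by
  rw [Submodule.one_eq_span, Submodule.one_eq_span, Submodule.span_span_of_tower]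

theorem el_pow (M : Submodule A E) (n : ℕ) :
    Submodule.span K ((M ^ n : Submodule A E) : Set E) = Submodule.span K (M : Set E) ^ n := by
  induction n with
  | zero => rw [pow_zero, pow_zero, el_one]
  | succ n ih => rw [pow_succ, pow_succ, el_mul, ih]

theorem el_sup (M M' : Submodule A E) :
    Submodule.span K ((M ⊔ M' : Submodule A E) : Set E) =
      Submodule.span K (M : Set E) ⊔ Submodule.span K (M' : Set E) := by
  apply le_antisymm
  · rw [Submodule.span_le]
    have h1 : M ⊔ M' ≤ (Submodule.span K (M : Set E) ⊔ Submodule.span K (M' : Set E)).restrictScalars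
        A := by
      refine sup_le ?_ ?_
      · intro m hm
        rw [Submodule.restrictScalars_mem]
        exact Submodule.mem_sup_left (Submodule.subset_span hm)
      · intro m hm
        rw [Submodule.restrictScalars_mem]
        exact Submodule.mem_sup_right (Submodule.subset_span hm)
    intro x hx
    exact (Submodule.restrictScalars_mem A _ x).mp (h1 hx)
  · refine sup_le ?_ ?_
    · exact Submodule.span_mono (fun x hx => Submodule.mem_sup_left hx)
    · exact Submodule.span_mono (fun x hx => Submodule.mem_sup_right hx)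

theorem el_t (t : A) (ht : algebraMap A K t ≠ 0) :
    Submodule.span K ((Submodule.span A {algebraMap A E t} : Submodule A E) : Set E) = 1 := by
  rw [Submodule.span_span_of_tower, Submodule.one_eq_span]
  apply le_antisymm
  · rw [Submodule.span_singleton_le_iff_mem, Submodule.mem_span_singleton]
    refine ⟨algebraMap A K t, ?_⟩
    rw [Algebra.smul_def, mul_one, ← IsScalarTower.algebraMap_apply]
  · rw [Submodule.span_singleton_le_iff_mem, Submodule.mem_span_singleton]
    refine ⟨(algebraMap A K t)⁻¹, ?_⟩
    rw [Algebra.smul_def, IsScalarTower.algebraMap_apply A K E, ← map_mul, inv_mul_cancel₀ ht,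
      map_one]

end ext

theorem el_mono {A E : Type u} [CommRing A] [CommRing E] [Algebra A E]
    {M M' L : Submodule A E} (h : M ≤ M') : M * L ≤ M' * L := by
  rw [Submodule.mul_le]
  intro m hm n hn
  exact Submodule.mul_mem_mul (h hm) hn

theorem pf_EL (hCPT : T_CPT.{u}) (hLAT : T_LAT.{u}) (hBHP : T_BHP.{u}) (hIDX : T_IDX)
    (hRKL : T_RKL.{u}) (hFLN : T_FLN.{u}) (hLCH : T_LCH.{u}) : T_EL.{u} := by
  intro A K E _ _ _ _ _ _ _ _ _ _ t p ht hp hval
  obtain ⟨F, hF0, hF⟩ := hCPT A E (algebraMap A E t) p hval
  obtain ⟨M₀, M₁, c, k₀, hM0, hM1, hM1b, hle, hsc, hN⟩ := hLAT A K E t p F ht hp hF0 hF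
  have htK : algebraMap A K t ≠ 0 := by
    intro h
    exact ht.ne_zero ((IsFractionRing.injective A K) (by rw [h, map_zero]))
  obtain ⟨s, hs⟩ : ∃ s : Submodule A E, s = Submodule.span A {algebraMap A E t} := ⟨_, rfl⟩
  rw [← hs] at hsc hN
  obtain ⟨N, hNd⟩ : ∃ N : Submodule A E, N = M₁ ^ p ⊔ s * M₀ ^ p := ⟨_, rfl⟩
  rw [← hNd] at hN
  have hes : Submodule.span K ((s : Submodule A E) : Set E) = 1 := by
    rw [hs]; exact el_t t htK
  obtain ⟨V, hV⟩ : ∃ V : Submodule K E, V = Submodule.span K (M₀ : Set E) := ⟨_, rfl⟩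
  have hV1 : Submodule.span K (M₁ : Set E) = V := by
    apply le_antisymm
    · rw [hV]
      exact Submodule.span_mono hle
    · have h1 : Submodule.span K ((s ^ c * M₀ : Submodule A E) : Set E) ≤
          Submodule.span K (M₁ : Set E) := Submodule.span_mono hsc
      rw [el_mul, el_pow, hes, one_pow, one_mul, ← hV] at h1
      exact h1
  have heN : Submodule.span K (N : Set E) = V ^ p := by
    rw [hNd, el_sup, el_mul, el_pow, el_pow, hes, one_mul, hV1, ← hV, sup_idem]
  have hVFG : V.FG := by
    obtain ⟨S, hS⟩ := hM0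
    refine ⟨S, ?_⟩
    rw [hV, ← hS, Submodule.span_span_of_tower]
  have hVb : V ≠ ⊥ := by
    obtain ⟨x, hx, hx0⟩ := (Submodule.ne_bot_iff M₁).mp hM1b
    rw [Submodule.ne_bot_iff]
    exact ⟨x, by rw [hV]; exact Submodule.subset_span (hle hx), hx0⟩
  refine ⟨V, hVFG, hVb, ?_⟩
  intro T hT
  obtain ⟨S, hS⟩ := hT
  obtain ⟨TA, hTA⟩ : ∃ TA : Submodule A E, TA = Submodule.span A (S : Set E) := ⟨_, rfl⟩
  have hTAfg : TA.FG := ⟨S, hTA.symm⟩
  have heT : Submodule.span K (TA : Set E) = T := by
    rw [hTA, Submodule.span_span_of_tower, hS]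
  have hsfg : s.FG := by rw [hs]; exact Submodule.fg_span_singleton _
  have hNfg : N.FG := by
    rw [hNd]
    exact (hM1.pow p).sup (hsfg.mul (hM0.pow p))
  obtain ⟨La, hLa⟩ : ∃ La : ℕ → ℕ → Submodule A E, ∀ j k, La j k = M₀ ^ j * M₁ ^ k * N ^ k₀ * TA :=
    ⟨_, fun _ _ => rfl⟩
  have hLafg : ∀ j k, (La j k).FG := fun j k => by
    rw [hLa]
    exact (((hM0.pow j).mul (hM1.pow k)).mul (hNfg.pow k₀)).mul hTAfg
  have hR1 : ∀ j k, M₀ * La j k = La (j + 1) k := fun j k => by
    rw [hLa, hLa, pow_succ]; ring
  have hR2 : ∀ j k, M₁ * La j k = La j (k + 1) := fun j k => by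
    rw [hLa, hLa, pow_succ]; ring
  have hR3 : ∀ j k, La j (k + p) = s * La (j + p) k := fun j k => by
    rw [hLa, hLa, pow_add, pow_add]
    calc M₀ ^ j * (M₁ ^ k * M₁ ^ p) * N ^ k₀ * TA = M₀ ^ j * M₁ ^ k * (N ^ k₀ * M₁ ^ p) * TA := by
          ring
      _ = M₀ ^ j * M₁ ^ k * (N ^ k₀ * (s * M₀ ^ p)) * TA := by rw [hN]
      _ = s * (M₀ ^ j * M₀ ^ p * M₁ ^ k * N ^ k₀ * TA) := by ring
  have heLa : ∀ j k, Submodule.span K (La j k : Set E) = V ^ (j + k + p * k₀) * T := fun j k => by
    rw [hLa, el_mul, el_mul, el_mul, el_pow, el_pow, el_pow, hV1, heN, heT, ← hV, pow_add, pow_add,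
      pow_mul]
  -- the bigraded function
  have hkey := hBHP A E M₀ M₁ (fun j k => M₀ * La j k) (fun j k => M₁ * La j k) hM0 hM1
    (fun j k => hM0.mul (hLafg j k)) (fun j k => el_mono hle)
    (fun j k => by
      constructor
      · change M₀ * (M₀ * La j k) ≤ M₀ * La (j + 1) k
        rw [hR1 j k]
      · change M₁ * (M₀ * La j k) ≤ M₀ * La j (k + 1)
        rw [← hR2 j k]
        exact le_of_eq (by ring))
    (fun j k => by
      constructor
      · change M₀ * (M₁ * La j k) ≤ M₁ * La (j + 1) k
        rw [← hR1 j k]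
        exact le_of_eq (by ring)
      · change M₁ * (M₁ * La j k) ≤ M₁ * La j (k + 1)
        rw [hR2 j k])
    ⟨0, fun j k => by
      constructor
      · intro _
        change M₀ * La (j + 1) k ≤ M₀ * (M₀ * La j k)
        rw [hR1 j k]
      · intro _
        change M₀ * La j (k + 1) ≤ M₁ * (M₀ * La j k)
        rw [← hR2 j k]
        exact le_of_eq (by ring)⟩
    (fun j k => by
      refine hFLN A E t c (M₀ * La j k) (M₁ * La j k) ht (hM0.mul (hLafg j k))
        (el_mono hle) ?_
      rw [← hs, ← mul_assoc]
      exact el_mono hsc)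
  obtain ⟨n₀, r, hD⟩ := hkey
  obtain ⟨J₀, hJ⟩ := hIDX p n₀ r _
    (fun J => (Module.finrank K ↥(V ^ (J + p * k₀) * T) : ℤ)) (by omega) hD (by
      intro J k hkJ
      have hch := hLCH A E p (fun i => La (J - (k + min i p)) (k + min i p)) (by
        intro i
        change La (J - (k + min (i + 1) p)) (k + min (i + 1) p) ≤
          La (J - (k + min i p)) (k + min i p)
        rcases lt_or_ge i p with hi | hi
        · have e1 : min (i + 1) p = i + 1 := by omega
          have e2 : min i p = i := by omega
          have e3 : J - (k + i) = (J - (k + (i + 1))) + 1 := by omega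
          rw [e1, e2, e3, ← hR1, ← add_assoc k i 1, ← hR2]
          exact el_mono hle
        · have e1 : min (i + 1) p = p := by omega
          have e2 : min i p = p := by omega
          rw [e1, e2]) (by
        intro i
        change IsFiniteLength A (↥(La (J - (k + min i p)) (k + min i p)) ⧸
          (La (J - (k + min (i + 1) p)) (k + min (i + 1) p)).submoduleOf
            (La (J - (k + min i p)) (k + min i p)))
        rcases lt_or_ge i p with hi | hi
        · have e1 : min (i + 1) p = i + 1 := by omega
          have e2 : min i p = i := by omega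
          have e3 : J - (k + i) = (J - (k + (i + 1))) + 1 := by omega
          refine hFLN A E t c _ _ ht (hLafg _ _) ?_ ?_
          · rw [e1, e2, e3, ← hR1, ← add_assoc k i 1, ← hR2]
            exact el_mono hle
          · rw [e1, e2, e3, ← hR1, ← add_assoc k i 1, ← hR2, ← hs, ← mul_assoc]
            exact el_mono hsc
        · have e1 : min (i + 1) p = p := by omega
          have e2 : min i p = p := by omega
          refine hFLN A E t 0 _ _ ht (hLafg _ _) ?_ ?_
          · rw [e1, e2]
          · rw [e1, e2, pow_zero, one_mul])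
      have hsum : ∑ i ∈ range p, lg (M₀ * La (J - 1 - (k + i)) (k + i))
          (M₁ * La (J - 1 - (k + i)) (k + i)) =
          ∑ i ∈ range p, lg (La (J - (k + min i p)) (k + min i p))
            (La (J - (k + min (i + 1) p)) (k + min (i + 1) p)) := by
        refine Finset.sum_congr rfl fun i hi => ?_
        have hi' := Finset.mem_range.mp hi
        have e1 : min (i + 1) p = i + 1 := by omega
        have e2 : min i p = i := by omega
        have e3 : J - (k + i) = (J - 1 - (k + i)) + 1 := by omega
        have e4 : J - (k + (i + 1)) = J - 1 - (k + i) := by omega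
        rw [e1, e2, e3, e4, hR1, hR2, add_assoc k i 1]
      change ∑ i ∈ range p, lg (M₀ * La (J - 1 - (k + i)) (k + i))
          (M₁ * La (J - 1 - (k + i)) (k + i)) = (Module.finrank K ↥(V ^ (J + p * k₀) * T) : ℤ)
      rw [hsum]
      refine hch.trans ?_
      have e1 : min 0 p = 0 := by omega
      have e2 : min p p = p := by omega
      have e3 : (J - (k + p)) + p = J - k := by omega
      rw [e1, e2, hR3, e3, add_zero, hs, hRKL A K E t _ ht (hLafg _ _), heLa]
      have e4 : J - k + k = J := by omega
      rw [e4])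
  refine ⟨J₀ + p * k₀, fun J hJJ => ?_⟩
  have h1 := hJ (J - p * k₀) (by omega)
  have e5 : J - p * k₀ + p * k₀ = J := by omega
  have h2 : (p : ℤ) ∣ (Module.finrank K ↥(V ^ (J - p * k₀ + p * k₀) * T) : ℤ) := h1
  rw [e5] at h2
  exact Int.natCast_dvd_natCast.mp h2

end Pool.Agent.H16.IX
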