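import Pool.Agent.H15.IX.TB

set_option autoImplicit false

open Finset Pool.Agent.H15.IX

namespace Pool.Agent.H16.IX

universe u

theorem pf_FLN : T_FLN.{u} := by
  intro A E _ _ _ _ _ t c L L' ht hL hle hkill
  have hart : IsArtinianRing (A ⧸ Ideal.span {t ^ c}) := by
    have h1 := isFiniteLength_quotient_span_singleton A (x := t ^ c)
      (mem_nonZeroDivisors_of_ne_zero (pow_ne_zero c ht.ne_zero))
    have h2 := (isFiniteLength_iff_isNoetherian_isArtinian.mp h1).2
    exact isArtinian_of_tower A h2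
  have hfin : Module.Finite A ↥L := Module.Finite.iff_fg.mpr hL
  have htor : Module.IsTorsionBySet A (↥L ⧸ L'.submoduleOf L) (Ideal.span {t ^ c} : Set A) := by
    intro x a
    obtain ⟨y, hy⟩ := Submodule.Quotient.mk_surjective _ x
    obtain ⟨a, ha⟩ := a
    obtain ⟨b, hb⟩ := Ideal.mem_span_singleton'.mp ha
    subst hy
    change a • Submodule.Quotient.mk y = 0
    rw [← Submodule.Quotient.mk_smul, Submodule.Quotient.mk_eq_zero]
    change ((a • y : ↥L) : E) ∈ L'
    have h1 : algebraMap A E t ^ c * (y : E) ∈ Submodule.span A {algebraMap A E t} ^ c * L :=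
      Submodule.mul_mem_mul (Submodule.pow_mem_pow _ (Submodule.mem_span_singleton_self _) c) y.2
    have h2 := L'.smul_mem b (hkill h1)
    rw [← hb]
    have h3 : (((b * t ^ c) • y : ↥L) : E) = b • (algebraMap A E t ^ c * (y : E)) := by
      rw [Submodule.coe_smul, mul_smul, Algebra.smul_def (t ^ c), map_pow]
    rw [h3]
    exact h2
  let _ : Module (A ⧸ Ideal.span {t ^ c}) (↥L ⧸ L'.submoduleOf L) := htor.module
  have hst : IsScalarTower A (A ⧸ Ideal.span {t ^ c}) (↥L ⧸ L'.submoduleOf L) :=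
    htor.isScalarTower
  have hf2 : Module.Finite (A ⧸ Ideal.span {t ^ c}) (↥L ⧸ L'.submoduleOf L) :=
    Module.Finite.of_restrictScalars_finite A _ _
  have hart2 : IsArtinian (A ⧸ Ideal.span {t ^ c}) (↥L ⧸ L'.submoduleOf L) := inferInstance
  rw [isFiniteLength_iff_isNoetherian_isArtinian]
  refine ⟨inferInstance, ?_⟩
  exact isArtinian_of_surjective_algebraMap (R := A ⧸ Ideal.span {t ^ c})
    Ideal.Quotient.mk_surjective

end Pool.Agent.H16.IX
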