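import Pool.Agent.H15.IX.TB

set_option autoImplicit false

open Finset Pool.Agent.H15.IX

namespace Pool.Agent.H16.IX

universe u

theorem pf_RKL : T_RKL.{u} := by
  intro A K E _ _ _ _ _ _ _ _ _ _ t L ht hL
  have hfin : Module.Finite A ↥L := Module.Finite.iff_fg.mpr hL
  have hinjK : Function.Injective (algebraMap A K) := IsFractionRing.injective A K
  have hinj : Function.Injective (algebraMap A E) := by
    rw [IsScalarTower.algebraMap_eq A K E]
    exact (algebraMap K E).injective.comp hinjK
  have hTF : Module.IsTorsionFree A E := by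
    have h1 : FaithfulSMul A E := (faithfulSMul_iff_algebraMap_injective A E).mpr hinj
    infer_instance
  have hfree : Module.Free A ↥L := inferInstance
  obtain ⟨b, hb⟩ : ∃ b : Module.Basis (Module.Free.ChooseBasisIndex A ↥L) A ↥L,
    b = Module.Free.chooseBasis A ↥L := ⟨_, rfl⟩
  have hmax : (Ideal.span {t}).IsMaximal := PrincipalIdealRing.isMaximal_of_irreducible ht
  have hsim : IsSimpleModule A (A ⧸ Ideal.span {t}) := by
    rw [isSimpleModule_iff_isCoatom]
    exact hmax.out
  -- the rank
  have hli : LinearIndependent K (fun i => ((b i : ↥L) : E)) := by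
    rw [← LinearIndependent.iff_fractionRing A K]
    exact b.linearIndependent.map' L.subtype (Submodule.ker_subtype L)
  have hspan : Submodule.span K (L : Set E) =
      Submodule.span K (Set.range (fun i => ((b i : ↥L) : E))) := by
    apply le_antisymm
    · rw [Submodule.span_le]
      intro x hx
      have h1 : (⟨x, hx⟩ : ↥L) = ∑ i, b.repr ⟨x, hx⟩ i • b i := (b.sum_repr ⟨x, hx⟩).symm
      have h2 : x = ∑ i, b.repr ⟨x, hx⟩ i • ((b i : ↥L) : E) := by
        have h3 := congrArg L.subtype h1
        rw [map_sum] at h3
        simp only [map_smul, Submodule.subtype_apply] at h3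
        exact h3
      rw [SetLike.mem_coe, h2]
      refine Submodule.sum_mem _ fun i _ => ?_
      rw [← algebraMap_smul K (b.repr ⟨x, hx⟩ i) ((b i : ↥L) : E)]
      exact Submodule.smul_mem _ _ (Submodule.subset_span ⟨i, rfl⟩)
    · rw [Submodule.span_le]
      rintro _ ⟨i, rfl⟩
      exact Submodule.subset_span (b i).2
  have hrank : Module.finrank K ↥(Submodule.span K (L : Set E)) =
      Fintype.card (Module.Free.ChooseBasisIndex A ↥L) := by
    rw [hspan, finrank_span_eq_card hli]
  -- the length
  obtain ⟨f, hf⟩ : ∃ f : ↥L →ₗ[A] (Module.Free.ChooseBasisIndex A ↥L → A ⧸ Ideal.span {t}),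
      ∀ x i, f x i = Ideal.Quotient.mk (Ideal.span {t}) (b.repr x i) := by
    refine ⟨LinearMap.pi fun i => (Submodule.mkQ (Ideal.span {t})).comp
      ((Finsupp.lapply i).comp b.repr.toLinearMap), ?_⟩
    intro x i
    rfl
  have hfs : Function.Surjective f := by
    intro y
    have h1 : ∀ i, ∃ a : A, Ideal.Quotient.mk (Ideal.span {t}) a = y i := fun i =>
      Ideal.Quotient.mk_surjective (y i)
    choose a ha using h1
    refine ⟨∑ i, a i • b i, ?_⟩
    funext i
    rw [hf, ← ha i, b.repr_sum_self]
  have hker : LinearMap.ker f = (Submodule.span A {algebraMap A E t} * L).submoduleOf L := by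
    ext x
    rw [LinearMap.mem_ker]
    constructor
    · intro h
      change ((x : ↥L) : E) ∈ Submodule.span A {algebraMap A E t} * L
      have h1 : ∀ i, ∃ a : A, a * t = b.repr x i := by
        intro i
        have h2 : f x i = 0 := by rw [h]; rfl
        rw [hf, Ideal.Quotient.eq_zero_iff_mem, Ideal.mem_span_singleton'] at h2
        exact h2
      choose a ha using h1
      have h3 : (x : E) = algebraMap A E t * ((∑ i, a i • b i : ↥L) : E) := by
        have h4 : x = ∑ i, b.repr x i • b i := (b.sum_repr x).symm
        have h5 : x = t • ∑ i, a i • b i := by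
          rw [h4, Finset.smul_sum]
          refine Finset.sum_congr rfl fun i _ => ?_
          rw [← ha i, smul_smul, mul_comm]
        rw [h5, Submodule.coe_smul, Algebra.smul_def]
      rw [h3]
      exact Submodule.mul_mem_mul (Submodule.mem_span_singleton_self _) (Subtype.coe_prop _)
    · intro h
      change ((x : ↥L) : E) ∈ Submodule.span A {algebraMap A E t} * L at h
      obtain ⟨z, hz, hzx⟩ := Submodule.mem_span_singleton_mul.mp h
      funext i
      rw [hf]
      have h5 : x = t • (⟨z, hz⟩ : ↥L) := by
        apply Subtype.ext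
        rw [Submodule.coe_smul, Algebra.smul_def, ← hzx]
      rw [h5, map_smul, Finsupp.smul_apply, smul_eq_mul]
      rw [Pi.zero_apply, Ideal.Quotient.eq_zero_iff_mem]
      exact Ideal.mul_mem_right _ _ (Ideal.mem_span_singleton_self t)
  have hlen : Module.length A (↥L ⧸ (Submodule.span A {algebraMap A E t} * L).submoduleOf L) =
      (Fintype.card (Module.Free.ChooseBasisIndex A ↥L) : ℕ∞) := by
    rw [← hker, (f.quotKerEquivOfSurjective hfs).length_eq, Module.length_pi_of_fintype]
    simp [Module.length_eq_one]
  unfold lg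
  rw [hlen, hrank]
  simp

end Pool.Agent.H16.IX
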